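import Pool.Agent.H47.ST.Targets

/-!
# MP_78620a_co: a regular placement at level `c ≥ R` creates a rank `> R` (row CAP)
-/

set_option autoImplicit false

namespace Pool.Agent.H13.STK

open Finset Pool.Agent.H47.ST

/-- the height is `1 +` the largest element -/
theorem top_mem (L : List ℕ) : ∀ h, h < top h L → ∃ r ∈ L, r + 1 = top h L := by
  induction L with
  | nil => intro h hh; simp [top] at hh
  | cons r B ih =>
    intro h hh
    simp only [top] at hh ⊢
    by_cases h1 : max h (r + 1) < top (max h (r + 1)) B
    · obtain ⟨s, hs, e⟩ := ih _ h1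
      exact ⟨s, List.mem_cons_of_mem _ hs, e⟩
    · refine ⟨r, List.mem_cons_self, ?_⟩
      have h2 : ∀ (B : List ℕ) (h : ℕ), h ≤ top h B := by
        intro B
        induction B with
        | nil => intro h; simp [top]
        | cons a B ih' => intro h; exact (le_max_left _ _).trans (ih' _)
      have h3 := h2 B (max h (r + 1))
      omega

theorem pf_CAP (h1 : T_TOP) : T_CAP := by
  intro R e c Ls X Y Rs _ hY hc hR hok
  have h2 := h1.2.2.2 e 0 Y
  rw [if_pos ⟨by omega, by rw [hY]; exact hc⟩, hY] at h2
  obtain ⟨r, hr, h3⟩ := top_mem (up e 0 Y) 0 (by omega)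
  have h4 : r ≤ R := by
    refine hok (ins e X Y) ?_ r ?_
    · unfold place
      simp
    · unfold ins
      simp [hr]
  omega

end Pool.Agent.H13.STK
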