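import Pool.Agent.H47.ST.Targets

/-!
# MP_78620a_co: the word of columns is determined by the rows (row RD)
-/

set_option autoImplicit false

namespace Pool.Agent.H13.STK

open Finset Pool.Agent.H47.ST

/-- deletion of the letter `0` -/
def del (W : List (List ℕ)) : List (List ℕ) :=
  W.map fun B => (B.filter fun x => decide (0 < x)).map Nat.pred

theorem del_succ (B : List ℕ) :
    ((B.map Nat.succ).filter fun x => decide (0 < x)).map Nat.pred = B := by
  induction B with
  | nil => rfl
  | cons a B ih => simpa using ih

theorem del_vpl (q : Pl) : del (vpl q) = q.1 ++ (q.2.1 ++ q.2.2.1) :: q.2.2.2 := by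
  have h1 : ∀ L : List (List ℕ), del (L.map (List.map Nat.succ)) = L := by
    intro L
    unfold del
    rw [List.map_map]
    refine (List.map_congr_left (g := id) fun B _ => ?_).trans (List.map_id L)
    exact del_succ B
  have h2 : ∀ A B : List (List ℕ), del (A ++ B) = del A ++ del B := fun A B => List.map_append
  have h3 : ∀ (A : List ℕ) (B : List (List ℕ)),
      del (A :: B) = (A.filter fun x => decide (0 < x)).map Nat.pred :: del B := fun A B => rfl
  unfold vpl
  rw [h2, h1, h3, h1, List.filter_append, List.map_append, List.filter_cons_of_neg (by simp),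
    del_succ, del_succ]

theorem zero_vpl (q : Pl) : ((vpl q).filter fun B => decide (0 ∈ B)).map List.length =
    [q.2.1.length + q.2.2.1.length + 1] := by
  have h1 : ∀ L : List (List ℕ), (L.map (List.map Nat.succ)).filter
      (fun B => decide (0 ∈ B)) = [] := by
    intro L
    rw [List.filter_eq_nil_iff]
    intro B hB
    obtain ⟨A, _, rfl⟩ := List.mem_map.1 hB
    simp
  unfold vpl
  rw [List.filter_append, h1, List.nil_append, List.filter_cons_of_pos (by simp), h1]
  simp
  omega

/-- rows of weakly decreasing length -/
theorem row_lt (d : ℕ) : ∀ V : List (List ℕ), V.Pairwise (fun A B => B.length ≤ A.length) →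
    ∀ j, (hj : j < V.length) →
    (d < V[j].length ↔ j < (V.filter fun B => decide (d < B.length)).length) := by
  intro V
  induction V with
  | nil => intro _ j hj; simp at hj
  | cons A V ih =>
    intro hp j hj
    rw [List.pairwise_cons] at hp
    by_cases hA : d < A.length
    · rw [List.filter_cons_of_pos (by simpa using hA)]
      cases j with
      | zero => simp [hA]
      | succ j =>
        have h1 := ih hp.2 j (by simpa using hj)
        simpa using h1
    · have h0 : V.filter (fun B => decide (d < B.length)) = [] := by
        rw [List.filter_eq_nil_iff]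
        intro B hB
        have := hp.1 B hB
        simp
        omega
      rw [List.filter_cons_of_neg (by simpa using hA), h0]
      have h2 : (A :: V)[j].length ≤ A.length := by
        cases j with
        | zero => simp
        | succ j =>
          simp only [List.getElem_cons_succ]
          exact hp.1 _ (List.getElem_mem _)
      simp only [List.length_nil, Nat.not_lt_zero, iff_false]
      omega

/-- the row of the new letter -/
theorem row_len {k : ℕ} {c : ℕ} {l : List ℕ} {V : List (List ℕ)} (hV : RInv k l V)
    (hk : (c :: l).count 0 ≤ k) (hl : ∀ d, (c :: l).count (d + 1) ≤ (c :: l).count d) :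
    (V.filter fun B => decide (c < B.length)).length < V.length ∧
    (V.getD (V.filter fun B => decide (c < B.length)).length []).length = c := by
  obtain ⟨h1, -, h3, h4, -, -⟩ := hV
  have hi : (V.filter fun B => decide (c < B.length)).length < V.length ∧
      (0 < c → (V.filter fun B => decide (c < B.length)).length <
        (V.filter fun B => decide (c - 1 < B.length)).length) := by
    rcases Nat.eq_zero_or_pos c with hc | hc
    · subst hc
      refine ⟨?_, fun h => absurd h (lt_irrefl _)⟩
      rw [h3 0, h1]
      rw [List.count_cons_self] at hk
      omega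
    · have h5 := hl (c - 1)
      have h6 : c - 1 + 1 = c := by omega
      rw [h6, List.count_cons_self, List.count_cons_of_ne (by omega)] at h5
      have h7 : (V.filter fun B => decide (c < B.length)).length <
          (V.filter fun B => decide (c - 1 < B.length)).length := by
        rw [h3 c, h3 (c - 1)]
        omega
      exact ⟨h7.trans_le (List.length_filter_le _ _), fun _ => h7⟩
  refine ⟨hi.1, ?_⟩
  rw [List.getD_eq_getElem _ _ hi.1]
  have h5 := row_lt c V h4 _ hi.1
  have h6 := row_lt (c - 1) V h4 _ hi.1
  rcases Nat.eq_zero_or_pos c with hc | hc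
  · subst hc
    have : ¬ 0 < (V[(V.filter fun B => decide (0 < B.length)).length]'hi.1).length :=
      fun h => lt_irrefl _ (h5.1 h)
    omega
  · have h7 := h6.2 (hi.2 hc)
    have h8 : ¬ c < (V[(V.filter fun B => decide (c < B.length)).length]'hi.1).length :=
      fun h => lt_irrefl _ (h5.1 h)
    omega

theorem del_smv {V : List (List ℕ)} {c p : ℕ}
    (h : (V.filter fun B => decide (c < B.length)).length < V.length) :
    del (smv V c p) = V := by
  unfold smv
  simp only
  rw [del_vpl]
  simp only
  rw [List.take_append_drop, List.getD_eq_getElem _ _ h, ← List.drop_eq_getElem_cons h,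
    List.take_append_drop]

theorem zero_smv {V : List (List ℕ)} {c p : ℕ}
    (h : (V.getD (V.filter fun B => decide (c < B.length)).length []).length = c) :
    ((smv V c p).filter fun B => decide (0 ∈ B)).map List.length = [c + 1] := by
  unfold smv
  simp only
  rw [zero_vpl]
  simp only
  rw [List.length_take, List.length_drop, h]
  congr 1
  omega

theorem lat_tail {c : ℕ} {l : List ℕ} (h : lat (c :: l).reverse) : lat l.reverse := by
  intro u v huv
  refine h u (v ++ [c]) ?_
  rw [List.reverse_cons, huv, List.append_assoc]

theorem lat_full {c : ℕ} {l : List ℕ} (h : lat (c :: l).reverse) (d : ℕ) :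
    (c :: l).count (d + 1) ≤ (c :: l).count d := by
  have h1 := h (c :: l).reverse [] (List.append_nil _).symm d
  rwa [List.count_reverse, List.count_reverse] at h1

theorem RD_aux (h1 : T_RI) (k : ℕ) : ∀ l l' : List ℕ, lat l.reverse → l.count 0 ≤ k →
    lat l'.reverse → l'.count 0 ≤ k → l.length = l'.length → ∀ W, W ∈ Rch k l → W ∈ Rch k l' →
    l = l' := by
  intro l
  induction l with
  | nil =>
    intro l' _ _ _ _ hlen W _ _
    exact (List.eq_nil_of_length_eq_zero hlen.symm).symm
  | cons c l ih =>
    intro l' hl hk hl' hk' hlen W hW hW'
    cases l' with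
    | nil => simp at hlen
    | cons c' l' =>
      simp only [Rch, mem_biUnion, Finset.mem_image] at hW hW'
      obtain ⟨V, hV, p, _, rfl⟩ := hW
      obtain ⟨V', hV', p', _, he⟩ := hW'
      have hkl : l.count 0 ≤ k := (List.count_le_count_cons).trans hk
      have hkl' : l'.count 0 ≤ k := (List.count_le_count_cons).trans hk'
      have hR := h1 k l (lat_tail hl) hkl V hV
      have hR' := h1 k l' (lat_tail hl') hkl' V' hV'
      obtain ⟨a1, a2⟩ := row_len hR hk (lat_full hl)
      obtain ⟨b1, b2⟩ := row_len hR' hk' (lat_full hl')
      have hc : c' = c := by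
        have h3 := zero_smv (p := p) a2
        have h4 := zero_smv (p := p') b2
        rw [he, h3] at h4
        have h5 := List.head_eq_of_cons_eq h4
        omega
      have hVV : V' = V := by
        rw [← del_smv (p := p') b1, he, del_smv a1]
      subst hc
      subst hVV
      rw [ih l' (lat_tail hl) hkl (lat_tail hl') hkl' (by simpa using hlen) V' hV hV']

theorem pf_RD (h1 : T_RI) : T_RD := by
  intro k l l' hl hk hl' hk' hlen hne
  rw [Finset.disjoint_left]
  intro W hW hW'
  exact hne (RD_aux h1 k l l' hl hk hl' hk' hlen W hW hW')

end Pool.Agent.H13.STK
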